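import Mathlib
import Pool.Agent.K3h88.Loz.Stm

/-!
# Matchings of one row
-/

set_option autoImplicit false

namespace Pool.Agent.K3h19.Loz

open Finset Pool.Agent.K3h88.Loz

open Classical in
theorem cnt_succ (X : Finset ℤ) (t : ℤ) : cnt X (t + 1) = cnt X t + if t ∈ X then 1 else 0 := by
  unfold cnt
  by_cases h : t ∈ X
  · rw [if_pos h]
    have h1 : X.filter (fun a => a < t + 1) = insert t (X.filter (fun a => a < t)) := by
      ext a
      simp only [mem_filter, mem_insert]
      constructor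
      · rintro ⟨h1, h2⟩
        rcases eq_or_ne a t with h3 | h3
        · exact Or.inl h3
        · exact Or.inr ⟨h1, by omega⟩
      · rintro (rfl | ⟨h1, h2⟩)
        · exact ⟨h, by omega⟩
        · exact ⟨h1, by omega⟩
    rw [h1, card_insert_of_notMem (by simp)]
  · rw [if_neg h, add_zero]
    congr 1
    ext a
    simp only [mem_filter]
    constructor
    · rintro ⟨h1, h2⟩
      refine ⟨h1, ?_⟩
      have : a ≠ t := by rintro rfl; exact h h1
      omega
    · rintro ⟨h1, h2⟩
      exact ⟨h1, by omega⟩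

theorem cnt_mem {X : Finset ℤ} {t : ℤ} (h : t ∈ X) : cnt X (t + 1) = cnt X t + 1 := by
  classical
  rw [cnt_succ, if_pos h]

theorem cnt_notMem {X : Finset ℤ} {t : ℤ} (h : t ∉ X) : cnt X (t + 1) = cnt X t := by
  classical
  rw [cnt_succ, if_neg h, add_zero]

theorem mem_of_cnt {X : Finset ℤ} {t : ℤ} (h : cnt X t < cnt X (t + 1)) : t ∈ X := by
  by_contra hh
  rw [cnt_notMem hh] at h
  omega

theorem cnt_le_succ (X : Finset ℤ) (t : ℤ) : cnt X t ≤ cnt X (t + 1) ∧
    cnt X (t + 1) ≤ cnt X t + 1 := by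
  classical
  rw [cnt_succ]
  split_ifs <;> omega

/-- perfect matchings between ups `A` and downs `B` of one row -/
structure IsM (A B : Finset ℤ) (m : ℤ → ℤ → Prop) : Prop where
  mem : ∀ a b, m a b → a ∈ A ∧ b ∈ B ∧ (b = a - 1 ∨ b = a)
  left : ∀ a ∈ A, ∃! b, m a b
  right : ∀ b ∈ B, ∃! a, m a b

/-- the explicit matching -/
def MM (A B : Finset ℤ) (a b : ℤ) : Prop :=
  a ∈ A ∧ ((b = a - 1 ∧ cnt B a = cnt A a + 1) ∨ (b = a ∧ cnt B a ≠ cnt A a + 1))

theorem isM_MM {A B : Finset ℤ} (h : rowOK A B) : IsM A B (MM A B) := by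
  obtain ⟨-, h⟩ := h
  refine ⟨?_, ?_, ?_⟩
  · rintro a b ⟨ha, (⟨rfl, hb⟩ | ⟨rfl, hb⟩)⟩
    · refine ⟨ha, ?_, Or.inl rfl⟩
      refine mem_of_cnt ?_
      have h1 := (h (a - 1)).2
      rw [sub_add_cancel] at h1 ⊢
      omega
    · refine ⟨ha, ?_, Or.inr rfl⟩
      refine mem_of_cnt ?_
      have h1 := h b
      have h2 := h (b + 1)
      have h3 := cnt_mem ha
      omega
  · intro a ha
    by_cases hc : cnt B a = cnt A a + 1
    · refine ⟨a - 1, ⟨ha, Or.inl ⟨rfl, hc⟩⟩, ?_⟩
      rintro b ⟨-, (⟨rfl, hb⟩ | ⟨rfl, hb⟩)⟩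
      · rfl
      · exact absurd hc hb
    · refine ⟨a, ⟨ha, Or.inr ⟨rfl, hc⟩⟩, ?_⟩
      rintro b ⟨-, (⟨rfl, hb⟩ | ⟨rfl, hb⟩)⟩
      · exact absurd hb hc
      · rfl
  · intro b hb
    have hb1 := cnt_mem hb
    have h0 := h b
    have h1 := h (b + 1)
    have hA := cnt_le_succ A b
    have hA1 := cnt_le_succ A (b + 1)
    by_cases hc : b ∈ A ∧ cnt B b ≠ cnt A b + 1
    · refine ⟨b, ⟨hc.1, Or.inr ⟨rfl, hc.2⟩⟩, ?_⟩
      rintro a ⟨ha, (⟨h3, h4⟩ | ⟨h3, h4⟩)⟩
      · exfalso
        obtain rfl : a = b + 1 := by omega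
        have h5 := cnt_mem hc.1
        have h6 := hc.2
        omega
      · exact h3.symm
    · have h7 : b + 1 ∈ A ∧ cnt B (b + 1) = cnt A (b + 1) + 1 := by
        by_cases hbA : b ∈ A
        · have h5 := cnt_mem hbA
          have h6 : cnt B b = cnt A b + 1 := by
            by_contra h9
            exact hc ⟨hbA, h9⟩
          refine ⟨mem_of_cnt ?_, ?_⟩ <;> omega
        · have h5 := cnt_notMem hbA
          refine ⟨mem_of_cnt ?_, ?_⟩ <;> omega
      refine ⟨b + 1, ⟨h7.1, Or.inl ⟨by ring, h7.2⟩⟩, ?_⟩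
      rintro a ⟨ha, (⟨h3, h4⟩ | ⟨h3, h4⟩)⟩
      · omega
      · exfalso
        subst h3
        exact hc ⟨ha, h4⟩

theorem exists_low (X : Finset ℤ) : ∃ t0 : ℤ, ∀ a ∈ X, t0 ≤ a := by
  rcases X.eq_empty_or_nonempty with rfl | h
  · exact ⟨0, by simp⟩
  · exact ⟨X.min' h, fun a ha => X.min'_le a ha⟩

theorem exists_high (X : Finset ℤ) : ∃ t0 : ℤ, ∀ a ∈ X, a < t0 := by
  rcases X.eq_empty_or_nonempty with rfl | h
  · exact ⟨0, by simp⟩
  · exact ⟨X.max' h + 1, fun a ha => by have := X.le_max' a ha; omega⟩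

open Classical in
theorem cnt_eq_of_isM {A B : Finset ℤ} {m : ℤ → ℤ → Prop} (h : IsM A B m) (t : ℤ) :
    cnt B t = cnt A t + if m t (t - 1) then 1 else 0 := by
  obtain ⟨a0, ha0⟩ := exists_low A
  obtain ⟨b0, hb0⟩ := exists_low B
  have hlow : ∀ t, t ≤ a0 → t ≤ b0 → cnt B t = cnt A t + if m t (t - 1) then 1 else 0 := by
    intro t h1 h2
    have h3 : cnt B t = 0 := by
      unfold cnt
      rw [card_eq_zero, filter_eq_empty_iff]
      intro b hb
      have := hb0 b hb
      omega
    have h4 : cnt A t = 0 := by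
      unfold cnt
      rw [card_eq_zero, filter_eq_empty_iff]
      intro b hb
      have := ha0 b hb
      omega
    have h5 : ¬ m t (t - 1) := by
      intro h6
      have := hb0 _ (h.mem _ _ h6).2.1
      omega
    rw [h3, h4, if_neg h5]
  rcases le_total t (min a0 b0) with ht | ht
  · exact hlow t (by omega) (by omega)
  · induction t, ht using Int.leInduction with
    | base => exact hlow _ (by omega) (by omega)
    | succ t ht ih =>
      rw [cnt_succ, cnt_succ, ih]
      have hA : (if t ∈ A then 1 else 0) =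
          (if m t t then 1 else 0) + (if m t (t - 1) then 1 else 0) := by
        by_cases hA : t ∈ A
        · obtain ⟨b, hb, hu⟩ := h.left t hA
          rw [if_pos hA]
          rcases (h.mem _ _ hb).2.2 with rfl | rfl
          · rw [if_pos hb, if_neg]
            intro h1
            have := hu _ h1
            omega
          · rw [if_pos hb, if_neg]
            intro h1
            have := hu _ h1
            omega
        · rw [if_neg hA, if_neg fun h1 => hA (h.mem _ _ h1).1,
            if_neg fun h1 => hA (h.mem _ _ h1).1]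
      have hB : (if t ∈ B then 1 else 0) =
          (if m t t then 1 else 0) + (if m (t + 1) t then 1 else 0) := by
        by_cases hB : t ∈ B
        · obtain ⟨a, ha, hu⟩ := h.right t hB
          rw [if_pos hB]
          rcases (h.mem _ _ ha).2.2 with h2 | h2
          · obtain rfl : a = t + 1 := by omega
            rw [if_pos ha, if_neg]
            intro h1
            have := hu _ h1
            omega
          · subst h2
            rw [if_pos ha, if_neg]
            intro h1
            have := hu _ h1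
            omega
        · rw [if_neg hB, if_neg fun h1 => hB (h.mem _ _ h1).2.1,
            if_neg fun h1 => hB (h.mem _ _ h1).2.1]
      rw [hA, hB, add_sub_cancel_right]
      omega

theorem rowOK_of_isM {A B : Finset ℤ} {m : ℤ → ℤ → Prop} (h : IsM A B m) : rowOK A B := by
  classical
  refine ⟨?_, fun t => ⟨?_, ?_⟩⟩
  · obtain ⟨a0, ha0⟩ := exists_high A
    obtain ⟨b0, hb0⟩ := exists_high B
    have h1 := cnt_eq_of_isM h (max a0 b0)
    have h2 : ¬ m (max a0 b0) (max a0 b0 - 1) := by
      intro h3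
      have := ha0 _ (h.mem _ _ h3).1
      omega
    rw [if_neg h2, add_zero] at h1
    have h3 : cnt A (max a0 b0) = A.card := by
      unfold cnt
      rw [filter_true_of_mem]
      intro a ha
      have := ha0 a ha
      omega
    have h4 : cnt B (max a0 b0) = B.card := by
      unfold cnt
      rw [filter_true_of_mem]
      intro a ha
      have := hb0 a ha
      omega
    omega
  · rw [cnt_eq_of_isM h t]
    omega
  · rw [cnt_eq_of_isM h t]
    split_ifs with h1
    · rw [cnt_mem (h.mem _ _ h1).1]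
    · rw [add_zero]
      exact (cnt_le_succ A t).1

theorem iff_of_isM {A B : Finset ℤ} {m : ℤ → ℤ → Prop} (h : IsM A B m) (a b : ℤ) :
    m a b ↔ MM A B a b := by
  classical
  have key : m a (a - 1) ↔ cnt B a = cnt A a + 1 := by
    rw [cnt_eq_of_isM h a]
    constructor
    · intro h1
      rw [if_pos h1]
    · intro h1
      by_contra h2
      rw [if_neg h2] at h1
      omega
  constructor
  · intro hm
    refine ⟨(h.mem _ _ hm).1, ?_⟩
    rcases (h.mem _ _ hm).2.2 with rfl | rfl
    · exact Or.inl ⟨rfl, key.1 hm⟩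
    · refine Or.inr ⟨rfl, fun h1 => ?_⟩
      have h2 := key.2 h1
      have h3 := (h.left b (h.mem _ _ hm).1).unique hm h2
      omega
  · rintro ⟨ha, (⟨rfl, h1⟩ | ⟨rfl, h1⟩)⟩
    · exact key.2 h1
    · obtain ⟨c, hc, -⟩ := h.left b ha
      rcases (h.mem _ _ hc).2.2 with rfl | rfl
      · exact absurd (key.1 hc) h1
      · exact hc

end Pool.Agent.K3h19.Loz
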