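import Mathlib
import Pool.Agent.K3h19.Loz.Row

/-!
# Tilings of a region given by rows
-/

set_option autoImplicit false

namespace Pool.Agent.K3h19.Loz

open Finset Pool.Agent.K3h88.Loz

/-- chains of sets of vertical lozenges with the top set `Q` -/
structure IsSeq (up dn : ℕ → Finset ℤ) (R : ℕ) (Q : Finset ℤ) (S : ℕ → Finset ℤ) : Prop where
  zero : S 0 = ∅
  top : S R = Q
  high : ∀ k, R < k → S k = ∅
  sub : ∀ k < R, S k ⊆ up k
  sub' : ∀ k < R, S (k + 1) ⊆ dn k
  row : ∀ k < R, rowOK (up k \ S k) (dn k \ S (k + 1))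

section count

variable (up dn : ℕ → Finset ℤ)

open Classical in
/-- admissible next sets -/
noncomputable def nxt (R : ℕ) (Q : Finset ℤ) : Finset (Finset ℤ) :=
  (up R).powerset.filter (fun S => rowOK (up R \ S) (dn R \ Q))

variable {up dn}

theorem isSeq_update {R : ℕ} {P Q : Finset ℤ} (hQ : Q ⊆ dn R) (hP : P ∈ nxt up dn R Q)
    {S : ℕ → Finset ℤ} (h : IsSeq up dn R P S) :
    IsSeq up dn (R + 1) Q (Function.update S (R + 1) Q) := by
  classical
  have hP' := hP
  rw [nxt, mem_filter, mem_powerset] at hP'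
  refine ⟨?_, ?_, ?_, ?_, ?_, ?_⟩
  · rw [Function.update_of_ne (by omega)]
    exact h.zero
  · rw [Function.update_self]
  · intro k hk
    rw [Function.update_of_ne (by omega)]
    exact h.high k (by omega)
  · intro k hk
    rw [Function.update_of_ne (by omega)]
    rcases Nat.lt_succ_iff_lt_or_eq.1 hk with h1 | rfl
    · exact h.sub k h1
    · rw [h.top]
      exact hP'.1
  · intro k hk
    rcases Nat.lt_succ_iff_lt_or_eq.1 hk with h1 | rfl
    · rw [Function.update_of_ne (by omega)]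
      exact h.sub' k h1
    · rw [Function.update_self]
      exact hQ
  · intro k hk
    rcases Nat.lt_succ_iff_lt_or_eq.1 hk with h1 | rfl
    · rw [Function.update_of_ne (by omega), Function.update_of_ne (by omega)]
      exact h.row k h1
    · rw [Function.update_self, Function.update_of_ne (by omega), h.top]
      exact hP'.2

theorem isSeq_restrict {R : ℕ} {Q : Finset ℤ} {S : ℕ → Finset ℤ}
    (h : IsSeq up dn (R + 1) Q S) :
    S R ∈ nxt up dn R Q ∧ IsSeq up dn R (S R) (Function.update S (R + 1) ∅) := by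
  classical
  refine ⟨?_, ⟨?_, ?_, ?_, ?_, ?_, ?_⟩⟩
  · rw [nxt, mem_filter, mem_powerset]
    refine ⟨h.sub R (by omega), ?_⟩
    have := h.row R (by omega)
    rwa [h.top] at this
  · rw [Function.update_of_ne (by omega)]
    exact h.zero
  · rw [Function.update_of_ne (by omega)]
  · intro k hk
    rcases eq_or_ne k (R + 1) with rfl | h1
    · rw [Function.update_self]
    · rw [Function.update_of_ne h1]
      exact h.high k (by omega)
  · intro k hk
    rw [Function.update_of_ne (by omega)]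
    exact h.sub k (by omega)
  · intro k hk
    rw [Function.update_of_ne (by omega)]
    exact h.sub' k (by omega)
  · intro k hk
    rw [Function.update_of_ne (by omega), Function.update_of_ne (by omega)]
    exact h.row k (by omega)

/-- splitting off the top row -/
def seqEquiv (R : ℕ) (Q : Finset ℤ) (hQ : Q ⊆ dn R) :
    {S : ℕ → Finset ℤ // IsSeq up dn (R + 1) Q S} ≃
      Σ P : {P // P ∈ nxt up dn R Q}, {S : ℕ → Finset ℤ // IsSeq up dn R P.1 S} where
  toFun S := ⟨⟨S.1 R, (isSeq_restrict S.2).1⟩, ⟨Function.update S.1 (R + 1) ∅,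
    (isSeq_restrict S.2).2⟩⟩
  invFun x := ⟨Function.update x.2.1 (R + 1) Q, isSeq_update hQ x.1.2 x.2.2⟩
  left_inv := by
    rintro ⟨S, hS⟩
    apply Subtype.ext
    simp only [Function.update_idem]
    rw [← hS.top, Function.update_eq_self]
  right_inv := by
    rintro ⟨⟨P, hP⟩, ⟨S, hS⟩⟩
    have h1 : Function.update S (R + 1) Q R = P := by
      rw [Function.update_of_ne (by omega), hS.top]
    have h2 : Function.update (Function.update S (R + 1) Q) (R + 1) ∅ = S := by
      rw [Function.update_idem, ← hS.high (R + 1) (by omega), Function.update_eq_self]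
    subst h1
    refine Sigma.ext rfl ?_
    refine heq_of_eq ?_
    apply Subtype.ext
    exact h2

theorem card_seq : ∀ (R : ℕ) (Q : Finset ℤ),
    Finite {S : ℕ → Finset ℤ // IsSeq up dn R Q S} ∧
      Nat.card {S : ℕ → Finset ℤ // IsSeq up dn R Q S} = chains up dn R Q
  | 0, Q => by
    classical
    by_cases hQ : Q = ∅
    · subst hQ
      have hu : ∀ S, IsSeq up dn 0 ∅ S ↔ S = fun _ => ∅ := by
        intro S
        constructor
        · intro h
          funext k
          rcases Nat.eq_zero_or_pos k with rfl | hk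
          · exact h.zero
          · exact h.high k hk
        · rintro rfl
          exact ⟨rfl, rfl, fun _ _ => rfl, fun _ h => absurd h (by omega),
            fun _ h => absurd h (by omega), fun _ h => absurd h (by omega)⟩
      have : Unique {S : ℕ → Finset ℤ // IsSeq up dn 0 ∅ S} :=
        ⟨⟨⟨fun _ => ∅, (hu _).2 rfl⟩⟩, fun x => Subtype.ext ((hu _).1 x.2)⟩
      refine ⟨inferInstance, ?_⟩
      rw [Nat.card_unique]
      simp [chains]
    · have : IsEmpty {S : ℕ → Finset ℤ // IsSeq up dn 0 Q S} :=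
        ⟨fun x => hQ (by rw [← x.2.top, x.2.zero])⟩
      refine ⟨inferInstance, ?_⟩
      rw [Nat.card_of_isEmpty]
      simp [chains, hQ]
  | R + 1, Q => by
    classical
    by_cases hQ : Q ⊆ dn R
    · have hfin : ∀ P : {P // P ∈ nxt up dn R Q}, Finite {S : ℕ → Finset ℤ //
          IsSeq up dn R P.1 S} := fun P => (card_seq R P.1).1
      refine ⟨Finite.of_equiv _ (seqEquiv R Q hQ).symm, ?_⟩
      rw [Nat.card_congr (seqEquiv R Q hQ), Nat.card_sigma]
      have h1 : ∀ P : {P // P ∈ nxt up dn R Q}, Nat.card {S : ℕ → Finset ℤ //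
          IsSeq up dn R P.1 S} = chains up dn R P.1 := fun P => (card_seq R P.1).2
      rw [sum_congr rfl fun P _ => h1 P, Finset.sum_coe_sort (nxt up dn R Q) (chains up dn R)]
      rw [chains, if_pos hQ, nxt]
    · have : IsEmpty {S : ℕ → Finset ℤ // IsSeq up dn (R + 1) Q S} :=
        ⟨fun x => hQ (by
          have := x.2.sub' R (by omega)
          rwa [x.2.top] at this)⟩
      refine ⟨inferInstance, ?_⟩
      rw [Nat.card_of_isEmpty, chains, if_neg hQ]

end count

section tile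

variable {R : ℕ} {up dn : ℕ → Finset ℤ} {Up Dn : Set (ℤ × ℤ)} {y0 : ℤ}

open Classical in
/-- the positions of the vertical lozenges -/
noncomputable def ofTil (R : ℕ) (up : ℕ → Finset ℤ) (y0 : ℤ) (τ : Set ((ℤ × ℤ) × (ℤ × ℤ)))
    (k : ℕ) : Finset ℤ :=
  if k < R then (up k).filter (fun a => (((a, y0 + k), (a, y0 + k - 1)) : (ℤ × ℤ) × (ℤ × ℤ)) ∈ τ)
  else ∅

/-- the tiling with given vertical lozenges -/
def toTil (R : ℕ) (up dn : ℕ → Finset ℤ) (y0 : ℤ) (S : ℕ → Finset ℤ) :
    Set ((ℤ × ℤ) × (ℤ × ℤ)) :=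
  {l | ∃ k, k < R ∧ l.1.2 = y0 + k ∧ l.1.1 ∈ up k ∧
    ((l.1.1 ∈ S k ∧ l.2 = (l.1.1, y0 + k - 1)) ∨
      (l.2.2 = y0 + k ∧ MM (up k \ S k) (dn k \ S (k + 1)) l.1.1 l.2.1))}

theorem mem_ofTil {τ : Set ((ℤ × ℤ) × (ℤ × ℤ))} {k : ℕ} {a : ℤ} :
    a ∈ ofTil R up y0 τ k ↔ k < R ∧ a ∈ up k ∧
      (((a, y0 + k), (a, y0 + k - 1)) : (ℤ × ℤ) × (ℤ × ℤ)) ∈ τ := by
  classical
  unfold ofTil
  split_ifs with h
  · rw [mem_filter]
    exact ⟨fun h1 => ⟨h, h1.1, h1.2⟩, fun h1 => ⟨h1.2.1, h1.2.2⟩⟩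
  · simp [h]

variable (hUp : ∀ u : ℤ × ℤ, u ∈ Up ↔ ∃ k : ℕ, k < R ∧ u.2 = y0 + k ∧ u.1 ∈ up k)
  (hDn : ∀ d : ℤ × ℤ, d ∈ Dn ↔ ∃ k : ℕ, k < R ∧ d.2 = y0 + k ∧ d.1 ∈ dn k)

include hUp in
theorem mem_Up {k : ℕ} (hk : k < R) (a : ℤ) : (a, y0 + (k : ℤ)) ∈ Up ↔ a ∈ up k := by
  rw [hUp]
  constructor
  · rintro ⟨k', h1, h2, h3⟩
    have : k = k' := by
      simp only at h2
      omega
    subst this
    exact h3
  · intro h
    exact ⟨k, hk, rfl, h⟩

include hUp hDn in
/-- the rows of a tiling -/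
theorem isM_of_tiling {τ : Set ((ℤ × ℤ) × (ℤ × ℤ))} (hτ : IsTiling Up Dn τ) {k : ℕ}
    (hk : k < R) :
    IsM (up k \ ofTil R up y0 τ k) (dn k \ ofTil R up y0 τ (k + 1))
      (fun a b => (((a, y0 + k), (b, y0 + k)) : (ℤ × ℤ) × (ℤ × ℤ)) ∈ τ) := by
  classical
  obtain ⟨h1, h2, h3⟩ := hτ
  refine ⟨?_, ?_, ?_⟩
  · intro a b hab
    obtain ⟨hu, hd, hadj⟩ := h1 _ hab
    simp only at hu hd
    refine ⟨?_, ?_, ?_⟩
    · rw [mem_sdiff]
      refine ⟨(mem_Up hUp hk a).1 hu, fun hS => ?_⟩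
      have h4 := (h2 _ hu).unique hab (mem_ofTil.1 hS).2.2
      have := congrArg Prod.snd h4
      simp only at this
      omega
    · rw [mem_sdiff]
      refine ⟨(mem_Up hDn hk b).1 hd, fun hS => ?_⟩
      have h5 := (mem_ofTil.1 hS).2.2
      have h6 : (y0 + ((k + 1 : ℕ) : ℤ) - 1) = y0 + k := by push_cast; ring
      rw [h6] at h5
      have h4 := (h3 _ hd).unique hab h5
      have := congrArg Prod.snd h4
      simp only at this
      push_cast at this
      omega
    · rcases hadj with h4 | h4 | h4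
      · have := congrArg Prod.snd h4
        simp only at this
        omega
      · left
        have := congrArg Prod.fst h4
        simpa using this
      · right
        have := congrArg Prod.fst h4
        simpa using this
  · intro a ha
    rw [mem_sdiff] at ha
    have hu := (mem_Up hUp hk a).2 ha.1
    obtain ⟨⟨b, z⟩, hd, huq⟩ := h2 _ hu
    have hz : z = y0 + k := by
      rcases (h1 _ hd).2.2 with h4 | h4 | h4
      · exfalso
        simp only [Prod.mk.injEq] at h4
        obtain ⟨rfl, rfl⟩ := h4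
        exact ha.2 (mem_ofTil.2 ⟨hk, ha.1, hd⟩)
      · simp only [Prod.mk.injEq] at h4
        exact h4.2
      · simp only [Prod.mk.injEq] at h4
        exact h4.2
    subst hz
    refine ⟨b, hd, ?_⟩
    intro c hc
    have := huq _ hc
    simpa using this
  · intro b hb
    rw [mem_sdiff] at hb
    have hdn := (mem_Up hDn hk b).2 hb.1
    obtain ⟨⟨a, z⟩, hd, huq⟩ := h3 _ hdn
    have hz : z = y0 + k := by
      rcases (h1 _ hd).2.2 with h4 | h4 | h4
      · exfalso
        simp only [Prod.mk.injEq] at h4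
        obtain ⟨rfl, h5⟩ := h4
        obtain rfl : z = y0 + ((k + 1 : ℕ) : ℤ) := by push_cast; omega
        obtain ⟨k', h6, h7, h8⟩ := (hUp _).1 (h1 _ hd).1
        obtain rfl : k + 1 = k' := by
          simp only at h7
          omega
        refine hb.2 (mem_ofTil.2 ⟨h6, h8, ?_⟩)
        have h9 : (y0 + ((k + 1 : ℕ) : ℤ) - 1) = y0 + k := by push_cast; ring
        rw [h9]
        exact hd
      · simp only [Prod.mk.injEq] at h4
        exact h4.2.symm
      · simp only [Prod.mk.injEq] at h4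
        exact h4.2.symm
    subst hz
    refine ⟨a, hd, ?_⟩
    intro c hc
    have := huq _ hc
    simpa using this

include hUp hDn in
theorem isSeq_ofTil {τ : Set ((ℤ × ℤ) × (ℤ × ℤ))} (hτ : IsTiling Up Dn τ) :
    IsSeq up dn R ∅ (ofTil R up y0 τ) := by
  have hh : ∀ k, ¬ k < R → ofTil R up y0 τ k = ∅ := by
    intro k hk
    rw [ofTil, if_neg hk]
  refine ⟨?_, hh _ (by omega), fun k hk => hh k (by omega), ?_, ?_,
    fun k hk => rowOK_of_isM (isM_of_tiling hUp hDn hτ hk)⟩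
  · rw [eq_empty_iff_forall_notMem]
    intro a ha
    obtain ⟨hk, h1, h2⟩ := mem_ofTil.1 ha
    obtain ⟨k, h3, h4, h5⟩ := (hDn _).1 (hτ.1 _ h2).2.1
    simp only at h4
    push_cast at h4
    omega
  · intro k hk a ha
    exact (mem_ofTil.1 ha).2.1
  · intro k hk a ha
    obtain ⟨hk1, h1, h2⟩ := mem_ofTil.1 ha
    have h3 := (hτ.1 _ h2).2.1
    have h6 : (y0 + ((k + 1 : ℕ) : ℤ) - 1) = y0 + k := by push_cast; ring
    simp only [h6] at h3
    exact (mem_Up hDn hk a).1 h3

include hUp hDn in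
theorem tiling_toTil {S : ℕ → Finset ℤ} (hS : IsSeq up dn R ∅ S) :
    IsTiling Up Dn (toTil R up dn y0 S) := by
  classical
  have hM : ∀ k < R, IsM (up k \ S k) (dn k \ S (k + 1)) (MM (up k \ S k) (dn k \ S (k + 1))) :=
    fun k hk => isM_MM (hS.row k hk)
  refine ⟨?_, ?_, ?_⟩
  · rintro ⟨⟨a, z⟩, ⟨b, w⟩⟩ ⟨k, hk, hz, ha, h⟩
    simp only at hz ha h
    subst hz
    refine ⟨(mem_Up hUp hk a).2 ha, ?_, ?_⟩
    · rcases h with ⟨h1, h2⟩ | ⟨h1, h2⟩
      · simp only [Prod.mk.injEq] at h2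
        obtain ⟨rfl, rfl⟩ := h2
        rcases Nat.eq_zero_or_pos k with rfl | hk0
        · rw [hS.zero] at h1
          simp at h1
        · obtain ⟨j, rfl⟩ : ∃ j, k = j + 1 := ⟨k - 1, by omega⟩
          have h6 : (y0 + ((j + 1 : ℕ) : ℤ) - 1) = y0 + j := by push_cast; ring
          simp only [h6]
          exact (mem_Up hDn (by omega) b).2 (hS.sub' j (by omega) h1)
      · subst h1
        exact (mem_Up hDn hk b).2 (mem_sdiff.1 ((hM k hk).mem _ _ h2).2.1).1
    · rcases h with ⟨h1, h2⟩ | ⟨h1, h2⟩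
      · exact Or.inl h2
      · subst h1
        rcases ((hM k hk).mem _ _ h2).2.2 with rfl | rfl
        · exact Or.inr (Or.inl rfl)
        · exact Or.inr (Or.inr rfl)
  · rintro ⟨a, z⟩ hu
    obtain ⟨k, hk, hz, ha⟩ := (hUp _).1 hu
    simp only at hz ha
    subst hz
    by_cases haS : a ∈ S k
    · refine ⟨(a, y0 + k - 1), ⟨k, hk, rfl, ha, Or.inl ⟨haS, rfl⟩⟩, ?_⟩
      rintro ⟨b, w⟩ ⟨k', hk', hz', -, h⟩
      simp only at hz' h
      obtain rfl : k = k' := by omega
      rcases h with ⟨h1, h2⟩ | ⟨h1, h2⟩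
      · exact h2
      · exact absurd haS (mem_sdiff.1 h2.1).2
    · have haM : a ∈ up k \ S k := mem_sdiff.2 ⟨ha, haS⟩
      obtain ⟨b, hb, hbu⟩ := (hM k hk).left a haM
      refine ⟨(b, y0 + k), ⟨k, hk, rfl, ha, Or.inr ⟨rfl, hb⟩⟩, ?_⟩
      rintro ⟨c, w⟩ ⟨k', hk', hz', -, h⟩
      simp only at hz' h
      obtain rfl : k = k' := by omega
      rcases h with ⟨h1, h2⟩ | ⟨h1, h2⟩
      · exact absurd h1 haS
      · rw [h1, hbu c h2]
  · rintro ⟨b, z⟩ hd
    obtain ⟨k, hk, hz, hb⟩ := (hDn _).1 hd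
    simp only at hz hb
    subst hz
    by_cases hbS : b ∈ S (k + 1)
    · have hk1 : k + 1 < R := by
        by_contra hcon
        obtain rfl : R = k + 1 := by omega
        rw [hS.top] at hbS
        simp at hbS
      refine ⟨(b, y0 + ((k + 1 : ℕ) : ℤ)), ⟨k + 1, hk1, rfl, hS.sub _ hk1 hbS,
        Or.inl ⟨hbS, ?_⟩⟩, ?_⟩
      · have h6 : (y0 + ((k + 1 : ℕ) : ℤ) - 1) = y0 + k := by push_cast; ring
        simp only [h6]
      · rintro ⟨a, w⟩ ⟨k', hk', hz', -, h⟩
        simp only at hz' h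
        rcases h with ⟨h1, h2⟩ | ⟨h1, h2⟩
        · simp only [Prod.mk.injEq] at h2
          obtain ⟨rfl, h3⟩ := h2
          obtain rfl : k' = k + 1 := by omega
          rw [hz']
        · obtain rfl : k = k' := by omega
          exact absurd hbS (mem_sdiff.1 ((hM k hk).mem _ _ h2).2.1).2
    · have hbM : b ∈ dn k \ S (k + 1) := mem_sdiff.2 ⟨hb, hbS⟩
      obtain ⟨a, ha, hau⟩ := (hM k hk).right b hbM
      refine ⟨(a, y0 + k), ⟨k, hk, rfl, (mem_sdiff.1 ha.1).1, Or.inr ⟨rfl, ha⟩⟩, ?_⟩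
      rintro ⟨c, w⟩ ⟨k', hk', hz', -, h⟩
      simp only at hz' h
      rcases h with ⟨h1, h2⟩ | ⟨h1, h2⟩
      · simp only [Prod.mk.injEq] at h2
        obtain ⟨rfl, h3⟩ := h2
        obtain rfl : k' = k + 1 := by omega
        exact absurd h1 hbS
      · obtain rfl : k = k' := by omega
        rw [hz', hau c h2]

theorem ofTil_toTil {S : ℕ → Finset ℤ} (hS : IsSeq up dn R ∅ S) :
    ofTil R up y0 (toTil R up dn y0 S) = S := by
  funext k
  by_cases hk : k < R
  · ext a
    rw [mem_ofTil]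
    constructor
    · rintro ⟨-, ha, ⟨k', hk', hz', -, h⟩⟩
      simp only at hz' h
      obtain rfl : k = k' := by omega
      rcases h with ⟨h1, -⟩ | ⟨h1, -⟩
      · exact h1
      · omega
    · intro ha
      exact ⟨hk, hS.sub k hk ha, k, hk, rfl, hS.sub k hk ha, Or.inl ⟨ha, rfl⟩⟩
  · rw [ofTil, if_neg hk]
    rcases Nat.lt_or_ge R k with h | h
    · exact (hS.high k h).symm
    · obtain rfl : k = R := by omega
      exact hS.top.symm

include hUp hDn in
theorem toTil_ofTil {τ : Set ((ℤ × ℤ) × (ℤ × ℤ))} (hτ : IsTiling Up Dn τ) :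
    toTil R up dn y0 (ofTil R up y0 τ) = τ := by
  have hM := fun {k : ℕ} (hk : k < R) => isM_of_tiling hUp hDn hτ hk
  ext ⟨⟨a, z⟩, ⟨b, w⟩⟩
  constructor
  · rintro ⟨k, hk, hz, ha, h⟩
    simp only at hz ha h
    subst hz
    rcases h with ⟨h1, h2⟩ | ⟨h1, h2⟩
    · rw [h2]
      exact (mem_ofTil.1 h1).2.2
    · subst h1
      exact (iff_of_isM (hM hk) a b).2 h2
  · intro h
    obtain ⟨hu, hd, hadj⟩ := hτ.1 _ h
    obtain ⟨k, hk, hz, ha⟩ := (hUp _).1 hu
    simp only at hz ha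
    subst hz
    refine ⟨k, hk, rfl, ha, ?_⟩
    rcases hadj with h4 | h4
    · left
      simp only at h4 ⊢
      refine ⟨mem_ofTil.2 ⟨hk, ha, ?_⟩, h4⟩
      rw [← h4]
      exact h
    · right
      have hw : w = y0 + k := by
        rcases h4 with h4 | h4
        · simp only [Prod.mk.injEq] at h4
          exact h4.2
        · simp only [Prod.mk.injEq] at h4
          exact h4.2
      subst hw
      exact ⟨rfl, (iff_of_isM (hM hk) a b).1 h⟩

end tile

/-- **Brick C4a**: the tilings of a region given by rows. -/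
theorem c4a : StmC4a := by
  intro R up dn Up Dn y0 hUp hDn
  rw [← (card_seq (up := up) (dn := dn) R ∅).2]
  refine Nat.card_congr
    ⟨fun τ => ⟨ofTil R up y0 τ.1, isSeq_ofTil hUp hDn τ.2⟩,
      fun S => ⟨toTil R up dn y0 S.1, tiling_toTil hUp hDn S.2⟩, ?_, ?_⟩
  · rintro ⟨τ, hτ⟩
    exact Subtype.ext (toTil_ofTil hUp hDn hτ)
  · rintro ⟨S, hS⟩
    exact Subtype.ext (ofTil_toTil hS)

end Pool.Agent.K3h19.Loz
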