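import Mathlib
import Pool.Agent.K3h88.Loz.Stm

/-!
# Superfactorial asymptotics
-/

set_option autoImplicit false

namespace Pool.Agent.K3h19.Loz

open Finset Filter Topology Pool.Agent.K3h88.Loz

/-- primitive of the logarithm -/
noncomputable def hh (x : ℝ) : ℝ := x * Real.log x - x

theorem hh_succ {a : ℝ} (ha : 0 < a) :
    hh a + Real.log a ≤ hh (a + 1) ∧ hh (a + 1) ≤ hh a + Real.log (a + 1) := by
  have h1 : 0 < a + 1 := by linarith
  have h2 : 0 < (a + 1) / a := div_pos h1 ha
  have h3 : Real.log ((a + 1) / a) = Real.log (a + 1) - Real.log a :=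
    Real.log_div h1.ne' ha.ne'
  have h4 := Real.log_le_sub_one_of_pos h2
  have h5 := Real.one_sub_inv_le_log_of_pos h2
  rw [h3] at h4 h5
  have h6 : a * ((a + 1) / a - 1) = 1 := by field_simp; ring
  have h7 : (a + 1) * (1 - ((a + 1) / a)⁻¹) = 1 := by
    rw [inv_div]
    field_simp
    ring
  have h8 := mul_le_mul_of_nonneg_left h4 ha.le
  have h9 := mul_le_mul_of_nonneg_left h5 h1.le
  unfold hh
  constructor <;> nlinarith

theorem V_hasDeriv {x : ℝ} (hx : 0 < x) : HasDerivAt V (hh x) x := by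
  have h1 := ((hasDerivAt_pow 2 x).div_const 2).mul (Real.hasDerivAt_log hx.ne')
  have h2 := (hasDerivAt_pow 2 x).const_mul (3 / 4 : ℝ)
  have h3 := h1.sub h2
  refine h3.congr_deriv ?_
  unfold hh
  field_simp
  ring

theorem hh_mono {x y : ℝ} (hx : 1 ≤ x) (hxy : x ≤ y) : hh x ≤ hh y := by
  rcases eq_or_lt_of_le hxy with rfl | hlt
  · exact le_rfl
  have hd : ∀ z, 0 < z → HasDerivAt hh (Real.log z) z := by
    intro z hz
    have h1 := (hasDerivAt_id z).mul (Real.hasDerivAt_log hz.ne')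
    have h2 := h1.sub (hasDerivAt_id z)
    refine h2.congr_deriv ?_
    simp only [id]
    field_simp
    ring
  obtain ⟨c, hc, h⟩ := exists_hasDerivAt_eq_slope hh Real.log hlt
    (fun z hz => (hd z (by linarith [hz.1])).continuousAt.continuousWithinAt)
    (fun z hz => hd z (by linarith [hz.1]))
  have h1 : 0 ≤ Real.log c := Real.log_nonneg (by linarith [hc.1])
  rw [h] at h1
  have h2 : 0 < y - x := by linarith
  have h3 := mul_nonneg h1 h2.le
  rw [div_mul_cancel₀ _ h2.ne'] at h3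
  linarith

theorem V_succ (k : ℕ) (hk : 1 ≤ k) :
    hh k ≤ V (k + 1) - V k ∧ V (k + 1) - V k ≤ hh (k + 1) := by
  have hk1 : (1 : ℝ) ≤ k := by exact_mod_cast hk
  obtain ⟨c, hc, h⟩ := exists_hasDerivAt_eq_slope V hh (show (k : ℝ) < k + 1 by linarith)
    (fun z hz => (V_hasDeriv (by linarith [hz.1])).continuousAt.continuousWithinAt)
    (fun z hz => V_hasDeriv (by linarith [hz.1]))
  rw [add_sub_cancel_left, div_one] at h
  rw [← h]
  exact ⟨hh_mono hk1 hc.1.le, hh_mono (by linarith [hc.1]) hc.2.le⟩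

theorem log_fact (k : ℕ) (hk : 1 ≤ k) : hh k ≤ Real.log (k.factorial : ℝ) ∧
    Real.log (k.factorial : ℝ) ≤ hh (k + 1) + 1 := by
  induction k, hk using Nat.le_induction with
  | base =>
    have h2 : (0 : ℝ) ≤ Real.log 2 := Real.log_nonneg (by norm_num)
    unfold hh
    norm_num
    linarith [Real.log_two_gt_d9]
  | succ k hk ih =>
    have hk0 : (0 : ℝ) < k := by exact_mod_cast hk
    have h1 := hh_succ hk0
    have h2 := hh_succ (show (0 : ℝ) < k + 1 by linarith)
    have h3 : Real.log ((k + 1).factorial : ℝ) =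
        Real.log (k + 1) + Real.log (k.factorial : ℝ) := by
      rw [Nat.factorial_succ]
      push_cast
      rw [Real.log_mul (by positivity) (by positivity)]
    rw [h3]
    push_cast
    constructor
    · linarith
    · linarith

theorem step (k : ℕ) : |Real.log (k.factorial : ℝ) - (V (k + 1) - V k)| ≤
    1 + Real.log (k + 1) := by
  rcases Nat.eq_zero_or_pos k with rfl | hk
  · unfold V
    norm_num
  · have h1 := log_fact k hk
    have h2 := V_succ k hk
    have h3 := hh_succ (show (0 : ℝ) < k by exact_mod_cast hk)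
    rw [abs_le]
    constructor <;> linarith

theorem log_sf (k : ℕ) : |Real.log (sf k) - V k| ≤ k * (1 + Real.log (k + 1)) := by
  induction k with
  | zero =>
    unfold sf V
    simp
  | succ k ih =>
    have h0 : sf (k + 1) = sf k * (k.factorial : ℝ) := by
      unfold sf
      rw [prod_range_succ]
    have hpos : 0 < sf k := by
      unfold sf
      exact prod_pos fun i _ => by positivity
    rw [h0, Real.log_mul hpos.ne' (by positivity)]
    have h1 := step k
    have h2 : Real.log ((k : ℝ) + 1) ≤ Real.log (((k + 1 : ℕ) : ℝ) + 1) :=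
      Real.log_le_log (by positivity) (by push_cast; linarith)
    have h3 : Real.log (sf k) + Real.log (k.factorial : ℝ) - V ((k + 1 : ℕ) : ℝ) =
        (Real.log (sf k) - V k) +
          (Real.log (k.factorial : ℝ) - (V (k + 1) - V k)) := by
      push_cast
      ring
    rw [h3]
    refine (abs_add_le _ _).trans ?_
    have h4 : (k : ℝ) * (1 + Real.log (k + 1)) ≤
        k * (1 + Real.log (((k + 1 : ℕ) : ℝ) + 1)) := by
      refine mul_le_mul_of_nonneg_left ?_ (by positivity)
      linarith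
    have h5 : (((k + 1 : ℕ) : ℝ)) * (1 + Real.log (((k + 1 : ℕ) : ℝ) + 1)) =
        k * (1 + Real.log (((k + 1 : ℕ) : ℝ) + 1)) + (1 + Real.log (((k + 1 : ℕ) : ℝ) + 1)) := by
      push_cast
      ring
    rw [h5]
    linarith

theorem V_continuous : Continuous V := by
  have h : V = fun a => a / 2 * (a * Real.log a) - 3 / 4 * a ^ 2 := by
    funext a
    unfold V
    ring
  rw [h]
  have h1 := Real.continuous_mul_log
  fun_prop

theorem V_scale (k : ℕ) {L : ℝ} (hL : 0 < L) :
    V k / L ^ 2 - ((k : ℝ) / L) ^ 2 / 2 * Real.log L = V ((k : ℝ) / L) := by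
  rcases Nat.eq_zero_or_pos k with rfl | hk
  · unfold V
    simp
  · have hk0 : (0 : ℝ) < k := by exact_mod_cast hk
    unfold V
    rw [Real.log_div hk0.ne' hL.ne']
    field_simp
    ring

theorem log_le_sqrt (k : ℕ) : Real.log ((k : ℝ) + 1) ≤ 2 * Real.sqrt ((k : ℝ) + 1) := by
  have h0 : (0 : ℝ) < (k : ℝ) + 1 := by positivity
  have h1 : 0 < Real.sqrt ((k : ℝ) + 1) := Real.sqrt_pos.2 h0
  have h2 := Real.log_le_sub_one_of_pos h1
  rw [Real.log_sqrt h0.le] at h2
  linarith

/-- **Brick H1**: superfactorial asymptotics. -/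
theorem h1 : StmH1 := by
  intro L k ξ hL hk
  have hLr : Tendsto (fun i => ((L i : ℕ) : ℝ)) atTop atTop :=
    tendsto_natCast_atTop_atTop.comp hL
  have hinv : Tendsto (fun i => ((L i : ℝ))⁻¹) atTop (𝓝 0) :=
    tendsto_inv_atTop_zero.comp hLr
  have hpos : ∀ᶠ i in atTop, 0 < (L i : ℝ) := hLr.eventually_gt_atTop 0
  have hmain : Tendsto (fun i => V ((k i : ℝ) / L i)) atTop (𝓝 (V ξ)) :=
    (V_continuous.tendsto ξ).comp hk
  have herr : Tendsto (fun i => (Real.log (sf (k i)) - V (k i)) / (L i : ℝ) ^ 2) atTop (𝓝 0) := by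
    have hb : Tendsto (fun i => ((k i : ℝ) / L i) * ((L i : ℝ)⁻¹ +
        2 * Real.sqrt (((k i : ℝ) / L i) * (L i : ℝ)⁻¹ + (L i : ℝ)⁻¹ * (L i : ℝ)⁻¹)))
        atTop (𝓝 (ξ * (0 + 2 * Real.sqrt (ξ * 0 + 0 * 0)))) :=
      hk.mul (hinv.add ((((hk.mul hinv).add (hinv.mul hinv)).sqrt).const_mul 2))
    have h0 : ξ * (0 + 2 * Real.sqrt (ξ * 0 + 0 * 0)) = 0 := by simp
    rw [h0] at hb
    refine squeeze_zero_norm' ?_ hb
    filter_upwards [hpos] with i hi
    rw [Real.norm_eq_abs, abs_div, abs_of_pos (pow_pos hi 2)]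
    have h1 := log_sf (k i)
    have h2 := log_le_sqrt (k i)
    have h3 : ((k i : ℝ) / L i) * (L i : ℝ)⁻¹ + (L i : ℝ)⁻¹ * (L i : ℝ)⁻¹ =
        ((k i : ℝ) + 1) / (L i : ℝ) ^ 2 := by
      field_simp
    rw [h3, Real.sqrt_div (by positivity), Real.sqrt_sq hi.le]
    have h4 : (k i : ℝ) * (1 + Real.log (k i + 1)) ≤
        k i * (1 + 2 * Real.sqrt ((k i : ℝ) + 1)) :=
      mul_le_mul_of_nonneg_left (by linarith) (by positivity)
    calc |Real.log (sf (k i)) - V (k i)| / (L i : ℝ) ^ 2
        ≤ (k i * (1 + 2 * Real.sqrt ((k i : ℝ) + 1))) / (L i : ℝ) ^ 2 := by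
          gcongr
          exact h1.trans h4
      _ = (k i : ℝ) / L i * ((L i : ℝ)⁻¹ + 2 * (Real.sqrt ((k i : ℝ) + 1) / L i)) := by
          field_simp
  have hsum := hmain.add herr
  rw [add_zero] at hsum
  refine hsum.congr' ?_
  filter_upwards [hpos] with i hi
  rw [← V_scale (k i) hi]
  ring

end Pool.Agent.K3h19.Loz
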